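import Mathlib
import Pool.Agent.Q164.DF.Ghost2

/-!
For `P = ℓ¹(S)`, `S` the free semigroup on countably many generators, the set `Simple(P)` is not a
`G_δ` subset of `Ideal(P)` in the Wijsman topology.
-/

set_option autoImplicit false

open Topology Filter Q164.DF Q164.DF.Ghost

namespace Pool.Agent.Results.MP_2e14e4_lc.SimpleNotGdelta

/-- A closed two-sided ideal of the (possibly non-unital) complex normed algebra `A`. -/
structure CIdeal (A : Type) [NonUnitalNormedRing A] [NormedSpace ℂ A] where
  /-- the underlying linear subspace -/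
  carrier : Submodule ℂ A
  /-- it is closed -/
  closed : IsClosed (carrier : Set A)
  /-- it is a left ideal -/
  mul_left : ∀ a x : A, x ∈ carrier → a * x ∈ carrier
  /-- it is a right ideal -/
  mul_right : ∀ a x : A, x ∈ carrier → x * a ∈ carrier

section Defs

variable (A : Type) [NonUnitalNormedRing A] [NormedSpace ℂ A]

/-- The Wijsman topology on the set of closed two-sided ideals of `A`: the weakest topology making
`K ↦ d(x, K)` continuous for every `x ∈ A`. -/
noncomputable instance wijsman : TopologicalSpace (CIdeal A) :=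
  ⨅ x : A, TopologicalSpace.induced (fun K => Metric.infDist x (K.carrier : Set A)) inferInstance

variable {A}

/-- The quotient space `A / K` with the quotient topology. -/
abbrev Quo (K : CIdeal A) : Type := A ⧸ K.carrier

/-- The product of `A / K`. -/
instance quoMul (K : CIdeal A) : Mul (Quo K) where
  mul := Quotient.map₂ (· * ·) (by
    intro a b hab c d hcd
    have h1 : a - b ∈ K.carrier := K.carrier.quotientRel_def.1 hab
    have h2 : c - d ∈ K.carrier := K.carrier.quotientRel_def.1 hcd
    refine K.carrier.quotientRel_def.2 ?_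
    have h3 : a * c - b * d = (a - b) * c + b * (c - d) := by noncomm_ring
    rw [h3]
    exact K.carrier.add_mem (K.mul_right _ _ h1) (K.mul_left _ _ h2))

lemma mk_mul (K : CIdeal A) (x y : A) :
    (K.carrier.mkQ (x * y) : Quo K) = K.carrier.mkQ x * K.carrier.mkQ y := rfl

end Defs

/-- The two-sided ideal of the algebra `B` generated by `b`: the smallest linear subspace
containing `b` and closed under left and right multiplication by elements of `B`. -/
def idealGen {B : Type} [AddCommGroup B] [Module ℂ B] [Mul B] (b : B) : Submodule ℂ B :=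
  sInf {J | (∀ a x : B, x ∈ J → a * x ∈ J ∧ x * a ∈ J) ∧ b ∈ J}

/-- `B` is simple: for every nonzero `b ∈ B` the two-sided ideal generated by `b` is dense. -/
def IsSimpleAlg (B : Type) [AddCommGroup B] [Module ℂ B] [Mul B] [TopologicalSpace B] : Prop :=
  ∀ b : B, b ≠ 0 → Dense (idealGen b : Set B)

/-- The set `Simple(A)` of all closed two-sided ideals `K` such that `A / K` is simple. -/
def Simple (A : Type) [NonUnitalNormedRing A] [NormedSpace ℂ A] : Set (CIdeal A) :=
  {K | IsSimpleAlg (Quo K)}

/-- The kernels of the homomorphisms `q t`. -/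
noncomputable def kt (t : ℕ → Bool) : CIdeal P where
  carrier := LinearMap.ker (q t : P →ₗ[ℂ] (E →L[ℂ] E))
  closed := (q t).isClosed_ker
  mul_left a x hx := by
    have h : q t x = 0 := hx
    change q t (a * x) = 0
    rw [q_mul, h, mul_zero]
  mul_right a x hx := by
    have h : q t x = 0 := hx
    change q t (x * a) = 0
    rw [q_mul, h, zero_mul]

lemma mem_kt (t : ℕ → Bool) (x : P) : x ∈ (kt t).carrier ↔ q t x = 0 := Iff.rfl

lemma continuous_kt : Continuous kt := by
  refine continuous_iInf_rng.2 fun x => continuous_induced_rng.2 ?_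
  have h : ((fun K : CIdeal P => Metric.infDist x (K.carrier : Set P)) ∘ kt)
      = fun t => ‖q t x‖ := by
    funext t
    exact infDist_Ker t x
  rw [h]
  exact (continuous_q x).norm

lemma simple_of_finite (t : ℕ → Bool) (ht : {i | t i = true}.Finite) : kt t ∈ Simple P := by
  obtain ⟨N, hN⟩ := ht.bddAbove
  have ht' : ∀ i, N + 1 ≤ i → t i = false := by
    intro i hi
    by_contra h
    have h1 : t i = true := by simpa using h
    have := hN h1
    omega
  intro b hb
  obtain ⟨b, rfl⟩ := (kt t).carrier.mkQ_surjective b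
  set J := (idealGen ((kt t).carrier.mkQ b)).comap (kt t).carrier.mkQ with hJ
  have hid : ∀ a x : Quo (kt t), x ∈ idealGen ((kt t).carrier.mkQ b) →
      a * x ∈ idealGen ((kt t).carrier.mkQ b) ∧ x * a ∈ idealGen ((kt t).carrier.mkQ b) := by
    intro a x hx
    rw [idealGen, Submodule.mem_sInf] at hx ⊢
    rw [Submodule.mem_sInf]
    exact ⟨fun I hI => (hI.1 a x (hx I hI)).1, fun I hI => (hI.1 a x (hx I hI)).2⟩
  have hb1 : (kt t).carrier.mkQ b ∈ idealGen ((kt t).carrier.mkQ b) := by
    rw [idealGen, Submodule.mem_sInf]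
    exact fun I hI => hI.2
  have hd : Dense (J : Set P) := by
    refine dense_of_finite t (N + 1) ht' J ?_ ?_ b hb1 ?_
    · intro a x hx
      exact ⟨(hid ((kt t).carrier.mkQ a) _ hx).1, (hid ((kt t).carrier.mkQ a) _ hx).2⟩
    · intro x hx
      rw [hJ, Submodule.mem_comap]
      have : (kt t).carrier.mkQ x = 0 := by
        rw [Submodule.mkQ_apply, Submodule.Quotient.mk_eq_zero]
        exact hx
      rw [this]
      exact Submodule.zero_mem _
    · intro h
      apply hb
      rw [Submodule.mkQ_apply, Submodule.Quotient.mk_eq_zero]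
      exact h
  have h2 := ((kt t).carrier.mkQ_surjective.denseRange).dense_image
    (show Continuous (kt t).carrier.mkQ from continuous_quot_mk) hd
  refine h2.mono ?_
  rintro _ ⟨x, hx, rfl⟩
  exact hx

lemma not_simple_of_infinite (t : ℕ → Bool) (ht : {i | t i = true}.Infinite) :
    kt t ∉ Simple P := by
  intro h
  obtain ⟨x, hx, hx0⟩ := exists_ghost t ht
  have hne : (kt t).carrier.mkQ x ≠ 0 := by
    rw [Submodule.mkQ_apply, Ne, Submodule.Quotient.mk_eq_zero]
    exact hx0
  have h1 := h _ hne
  have h2 : idealGen ((kt t).carrier.mkQ x) ≤ (L t).map (kt t).carrier.mkQ := by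
    refine sInf_le ⟨?_, ⟨x, hx, rfl⟩⟩
    intro a y hy
    obtain ⟨a, rfl⟩ := (kt t).carrier.mkQ_surjective a
    obtain ⟨y, hy, rfl⟩ := hy
    exact ⟨⟨a * y, (L_ideal t a y hy).1, rfl⟩, ⟨y * a, (L_ideal t a y hy).2, rfl⟩⟩
  have h3 : Dense (((L t).map (kt t).carrier.mkQ : Submodule ℂ (Quo (kt t))) :
      Set (Quo (kt t))) := h1.mono h2
  have h4 := h3.preimage (kt t).carrier.isOpenMap_mkQ
  have h5 : (kt t).carrier.mkQ ⁻¹' (((L t).map (kt t).carrier.mkQ :
      Submodule ℂ (Quo (kt t))) : Set (Quo (kt t))) ⊆ (L t : Set P) := by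
    rintro y ⟨z, hz, hzy⟩
    have h6 : y - z ∈ (kt t).carrier := by
      rw [← Submodule.Quotient.mk_eq_zero, Submodule.Quotient.mk_sub]
      rw [Submodule.mkQ_apply, Submodule.mkQ_apply] at hzy
      rw [hzy, sub_self]
    have h7 : y - z ∈ L t := Ker_le_L t h6
    have h8 := (L t).add_mem h7 hz
    rwa [sub_add_cancel] at h8
  have h6 : Dense (L t : Set P) := h4.mono h5
  obtain ⟨a, ha⟩ := L_ne t
  have h7 := h6 a
  rw [(L_closed t).closure_eq] at h7
  exact ha h7

/-- The sequences with finite support do not form a `G_δ` set. -/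
lemma not_gdelta : ¬ IsGδ {t : ℕ → Bool | {i | t i = true}.Finite} := by
  intro h
  have hd : Dense {t : ℕ → Bool | {i | t i = true}.Finite} := by
    intro t
    rw [mem_closure_iff_seq_limit]
    refine ⟨fun n i => if i < n then t i else false, fun n => ?_, ?_⟩
    · refine (Set.finite_lt_nat n).subset fun i hi => ?_
      by_contra hc
      have hc' : ¬ i < n := hc
      have : (if i < n then t i else false) = true := hi
      rw [if_neg hc'] at this
      exact Bool.false_ne_true this
    · rw [tendsto_pi_nhds]
      intro i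
      refine tendsto_const_nhds.congr' ?_
      filter_upwards [eventually_gt_atTop i] with n hn
      rw [if_pos hn]
  have hG : IsGδ (⋂ N : ℕ, ⋃ i ≥ N, {t : ℕ → Bool | t i = true}) := by
    refine IsGδ.iInter_of_isOpen fun N => isOpen_iUnion fun i => isOpen_iUnion fun _ => ?_
    have h1 : IsOpen ({true} : Set Bool) := isOpen_discrete _
    have h2 : Continuous fun t : ℕ → Bool => t i := continuous_apply i
    exact h1.preimage h2
  have hd2 : Dense (⋂ N : ℕ, ⋃ i ≥ N, {t : ℕ → Bool | t i = true}) := by
    intro t
    rw [mem_closure_iff_seq_limit]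
    refine ⟨fun n i => if i < n then t i else true, fun n => ?_, ?_⟩
    · simp only [Set.mem_iInter, Set.mem_iUnion]
      intro N
      refine ⟨max N n, le_max_left _ _, ?_⟩
      change (if max N n < n then t (max N n) else true) = true
      rw [if_neg (by omega)]
    · rw [tendsto_pi_nhds]
      intro i
      refine tendsto_const_nhds.congr' ?_
      filter_upwards [eventually_gt_atTop i] with n hn
      rw [if_pos hn]
  obtain ⟨t, ht1, ht2⟩ := (hd.inter_of_Gδ h hG hd2).nonempty
  obtain ⟨N, hN⟩ := Set.Finite.bddAbove ht1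
  simp only [Set.mem_iInter, Set.mem_iUnion] at ht2
  obtain ⟨i, hi, hti⟩ := ht2 (N + 1)
  have := hN hti
  omega

/-- For `P = ℓ¹(S)`, `S` the free semigroup on countably many generators (a separable quotient
generator for Banach algebras), the set `Simple(P)` of closed two-sided ideals `K` with `P / K`
simple is not a `G_δ` subset of the space `Ideal(P)` of closed two-sided ideals with the Wijsman
topology; neither is `Simple(P) \ {P}`. -/
theorem result :
    ¬ IsGδ (Simple (EllS (FreeSemigroup ℕ))) ∧
    ¬ IsGδ (Simple (EllS (FreeSemigroup ℕ)) ∩ {K | K.carrier ≠ ⊤}) := by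
  have hne : ∀ t, (kt t).carrier ≠ ⊤ := by
    intro t h
    obtain ⟨a, ha⟩ := L_ne t
    exact ha (Ker_le_L t (show a ∈ (kt t).carrier by rw [h]; trivial))
  have key : ∀ t, kt t ∈ Simple P ↔ {i | t i = true}.Finite := by
    intro t
    refine ⟨fun h => ?_, simple_of_finite t⟩
    by_contra hc
    exact not_simple_of_infinite t hc h
  constructor
  · intro h
    refine not_gdelta ?_
    have h1 := h.preimage continuous_kt
    convert h1 using 1
    ext t
    exact (key t).symm
  · intro h
    refine not_gdelta ?_
    have h1 := h.preimage continuous_kt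
    convert h1 using 1
    ext t
    exact ⟨fun ht => ⟨(key t).2 ht, hne t⟩, fun ht => (key t).1 ht.1⟩

end Pool.Agent.Results.MP_2e14e4_lc.SimpleNotGdelta
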